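import Pool.Agent.Helper84.Sn.Calc
import Pool.Agent.Helper1.Stab.Poly

/-! MP_ab4156_gt. The coefficients of the monomials in `P = R ∧ BU₊` and their naturality. -/

open Topology Filter Set

noncomputable section

namespace Pool.Agent.Helper33.Sn

open Pool.Agent.Helper1.Stab Pool.Agent.Helper84.Sn

section
variable {R : Biv} (P : PRTheory R) (o : Orient R) {K K' L Z Z' V W : LC}

theorem inc_ltens33 (x : R.Hom K L) (Z : LC) : P.inc (R.ltens Z x) = P.ltens Z (P.inc x) := by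
  unfold BivData.ltens
  rw [P.inc_comp, P.inc_comp, P.inc_J, P.inc_J, P.inc_tens]

/-! ### Coefficients -/

theorem psi_bij (K Z : LC) : Function.Bijective (PO7.psi P o K Z) :=
  ⟨(injective_iff_map_eq_zero _).2 (PO7.psi_inj P o K Z), PO7.psi_surj P o K Z⟩

/-- the polynomial theorem as an equivalence -/
def psiE (K Z : LC) : (Π₀ L : PL, R.Hom K ((Cn (deg L.1)).prod Z)) ≃+ P.Hom K Z :=
  AddEquiv.ofBijective (PO7.psi P o K Z) (psi_bij P o K Z)

/-- the coefficient of `b_L` -/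
def co (K Z : LC) (L : PL) : P.Hom K Z →+ R.Hom K ((Cn (deg L.1)).prod Z) :=
  (DFinsupp.evalAddMonoidHom L).comp (psiE P o K Z).symm.toAddMonoidHom

open Classical in
theorem psi_single (K Z : LC) (L : PL) (c : R.Hom K ((Cn (deg L.1)).prod Z)) :
    PO7.psi P o K Z (DFinsupp.single L c) = P.term c (P.bL o L.1) :=
  DFinsupp.sumAddHom_single _ _ _

open Classical in
theorem co_term (L L' : PL) (c : R.Hom K ((Cn (deg L'.1)).prod Z)) :
    co P o K Z L (P.term c (P.bL o L'.1)) = (DFinsupp.single L' c :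
      Π₀ L : PL, R.Hom K ((Cn (deg L.1)).prod Z)) L := by
  have h : (psiE P o K Z).symm (P.term c (P.bL o L'.1)) = DFinsupp.single L' c := by
    rw [← psi_single]
    exact (psiE P o K Z).symm_apply_apply (DFinsupp.single L' c)
  change (psiE P o K Z).symm (P.term c (P.bL o L'.1)) L = _
  rw [h]

/-- naturality of the coefficients -/
theorem co_nat (T : P.Hom K Z →+ P.Hom K' Z') (σ : PL → PL) (hσ : Function.Injective σ)
    (t : ∀ L : PL, R.Hom K ((Cn (deg L.1)).prod Z) →+ R.Hom K' ((Cn (deg (σ L).1)).prod Z'))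
    (h : ∀ L c, T (P.term c (P.bL o L.1)) = P.term (t L c) (P.bL o (σ L).1)) (L : PL)
    (y : P.Hom K Z) : co P o K' Z' (σ L) (T y) = t L (co P o K Z L y) := by
  classical
  obtain ⟨c, rfl⟩ := PO7.psi_surj P o K Z y
  have key : ((co P o K' Z' (σ L)).comp T).comp (PO7.psi P o K Z) =
      ((t L).comp (co P o K Z L)).comp (PO7.psi P o K Z) := by
    refine DFinsupp.addHom_ext fun L' c => ?_
    change co P o K' Z' (σ L) (T (PO7.psi P o K Z (DFinsupp.single L' c))) =
      t L (co P o K Z L (PO7.psi P o K Z (DFinsupp.single L' c)))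
    rw [psi_single, h, co_term, co_term]
    by_cases hL : L' = L
    · subst hL
      rw [DFinsupp.single_eq_same, DFinsupp.single_eq_same]
    · rw [DFinsupp.single_eq_of_ne (fun e => hL (hσ e.symm)),
        DFinsupp.single_eq_of_ne (fun e => hL e.symm), map_zero]
  exact DFunLike.congr_fun key c

/-! ### Naturality of the terms -/

theorem term_comp {d : ℕ} (u : R.Hom K' K) (c : R.Hom K ((Cn d).prod Z))
    (x : P.Hom (Cn d) LC.point) :
    P.comp (P.inc u) (P.term c x) = P.term (R.comp u c) x := by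
  unfold PRTheory.term
  rw [P.inc_comp, P.assoc]

theorem term_ltens {d : ℕ} (W : LC) (c : R.Hom K ((Cn d).prod Z)) (x : P.Hom (Cn d) LC.point) :
    P.ltens W (P.term c x) =
      P.term (R.comp (R.ltens W c) (R.J (PMap.ofHomeo (ll W (Cn d) Z)))) x := by
  unfold PRTheory.term
  have h := bx_ll (R := P.toBiv) (one P.toBiv W) x (one P.toBiv Z)
  rw [bx_one, bx_one, tens_one, one_bx, bx_one] at h
  rw [P.inc_comp, P.inc_J, inc_ltens33, P.assoc, ← P.assoc (P.J _)]
  refine Eq.trans ?_ (congrArg (fun z => P.comp (P.ltens W (P.inc c)) (P.comp z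
    (P.J (PMap.ofHomeo (LC.lunit (W.prod Z)))))) h)
  rw [P.assoc, J_J, Helper84.Sn.ltens_comp, Helper84.Sn.ltens_comp, Helper84.Sn.ltens_J]
  rfl

/-- `(v, (w, z)) ↦ ((w, v), z)` -/
def kap (d : ℕ) (Z : LC) : (Cn 1).prod ((Cn d).prod Z) ≃ₜ (Cn (d + 1)).prod Z where
  toFun := fun v => ((v.2.1, v.1.2), v.2.2)
  invFun := fun v => ((PUnit.unit, v.1.2), (v.1.1, v.2))
  left_inv := fun _ => rfl
  right_inv := fun _ => rfl
  continuous_toFun := by fun_prop
  continuous_invFun := by fun_prop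

/-- multiplication with `b_1` -/
def mb (K Z : LC) : P.Hom K Z →+ P.Hom ((Cn 1).prod K) Z :=
  AddMonoidHom.mk' (fun y => P.comp (P.tens (P.b o 1) K)
    (P.comp (P.J (PMap.ofHomeo (LC.lunit K))) y)) fun y y' => by
      rw [P.comp_add, P.comp_add]

/-- `(v, (w, z)) ↦ ((w, v), z)` -/
def sh (V W Z : LC) : V.prod (W.prod Z) ≃ₜ (W.prod V).prod Z where
  toFun := fun v => ((v.2.1, v.1), v.2.2)
  invFun := fun v => (v.1.2, (v.1.1, v.2))
  left_inv := fun _ => rfl
  right_inv := fun _ => rfl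
  continuous_toFun := by fun_prop
  continuous_invFun := by fun_prop

theorem mb_aux (Q : Biv) {V W : LC} (x : Q.Hom V LC.point) (b : Q.Hom W LC.point) (Z : LC) :
    Q.comp (Q.tens b (V.prod Z)) (Q.comp (Q.J (PMap.ofHomeo (LC.lunit (V.prod Z))))
      (Q.comp (Q.tens x Z) (Q.J (PMap.ofHomeo (LC.lunit Z))))) =
    Q.comp (Q.J (PMap.ofHomeo (sh W V Z))) (Q.comp (Q.tens (Q.comp (Q.comp (Q.tens x W)
      (Q.ltens LC.point b)) (Q.J (PMap.ofHomeo (LC.lunit LC.point)))) Z)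
        (Q.J (PMap.ofHomeo (LC.lunit Z)))) := by
  -- reordering of the factors
  have h1 : Sq _ _ _ _ := bx_assoc' b x (one Q Z)
  have h2 : Sq _ _ _ _ := bx_swap b x
  have h3 := h1.trans (h2.bx (sq_id (one Q Z)))
  rw [bx_one, bx_one] at h3
  unfold Sq at h3
  have h4 : (Q.comp (Q.comp (Q.tens x W) (Q.ltens LC.point b))
      (Q.J (PMap.ofHomeo (LC.lunit LC.point)))) =
      Q.comp (bx x b) (Q.J (PMap.ofHomeo (LC.lunit LC.point))) := rfl
  have h5 := point_bx (Q.tens x Z)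
  rw [one_bx] at h5
  have h6 : Q.comp (Q.tens b (V.prod Z)) (Q.comp (Q.J (PMap.ofHomeo (LC.lunit (V.prod Z))))
      (Q.comp (Q.tens x Z) (Q.J (PMap.ofHomeo (LC.lunit Z))))) =
      Q.comp (bx b (Q.tens x Z)) (Q.J ((PMap.ofHomeo (LC.lunit Z)).comp
        (PMap.ofHomeo (LC.lunit (LC.point.prod Z))))) := by
    rw [← Q.assoc (Q.J _) (Q.tens x Z)]
    refine (congrArg (fun z => Q.comp (Q.tens b (V.prod Z)) (Q.comp z
      (Q.J (PMap.ofHomeo (LC.lunit Z))))) h5.symm).trans ?_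
    rw [Q.assoc, ← Q.assoc (Q.tens b (V.prod Z)), Q.J_comp]
    rfl
  have h7 : Q.comp (Q.J (PMap.ofHomeo (sh W V Z))) (Q.tens (bx x b) Z) =
      Q.comp (bx b (Q.tens x Z)) (Q.J (PMap.ofHomeo (sh LC.point LC.point Z))) := h3.symm
  rw [h6, h4, Q.tens_comp, Q.tens_J, ← Q.assoc, ← Q.assoc, h7, Q.assoc, Q.assoc, J_J, J_J]
  rfl

/-- multiplication of a term with `b_1` -/
theorem mb_term (L : List ℕ) (c : R.Hom K ((Cn (deg L)).prod Z)) :
    mb P o K Z (P.term c (P.bL o L)) =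
      P.term (R.comp (R.ltens (Cn 1) c) (R.J (PMap.ofHomeo (kap (deg L) Z))))
        (P.bL o (1 :: L)) := by
  change P.comp (P.tens (P.b o 1) K) (P.comp (P.J (PMap.ofHomeo (LC.lunit K)))
    (P.comp (P.inc c) (P.comp (P.tens (P.bL o L) Z) (P.J (PMap.ofHomeo (LC.lunit Z)))))) =
    P.comp (P.inc (R.comp (R.ltens (Cn 1) c) (R.J (PMap.ofHomeo (kap (deg L) Z)))))
      (P.comp (P.tens (P.comp (P.J (PMap.ofHomeo (CnAdd (deg L) 1).symm))
        (P.mulPt (P.bL o L) (P.b o 1))) Z) (P.J (PMap.ofHomeo (LC.lunit Z))))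
  have h1 := point_bx (P.inc c)
  rw [one_bx] at h1
  have h2 : P.comp (P.J (PMap.ofHomeo (LC.lunit K))) (P.inc c) =
      P.comp (P.ltens LC.point (P.inc c)) (P.J (PMap.ofHomeo (LC.lunit ((Cn (deg L)).prod Z)))) :=
    h1.symm
  have h3 : P.comp (P.tens (P.b o 1) K) (P.ltens LC.point (P.inc c)) =
      P.comp (P.ltens (Cn 1) (P.inc c)) (P.tens (P.b o 1) ((Cn (deg L)).prod Z)) :=
    P.exch (P.b o 1) (P.inc c)
  have h4 : P.tens (P.comp (P.J (PMap.ofHomeo (CnAdd (deg L) 1).symm))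
      (P.mulPt (P.bL o L) (P.b o 1))) Z =
      P.comp (P.J (PMap.tens (PMap.ofHomeo (CnAdd (deg L) 1).symm) Z))
        (P.tens (P.mulPt (P.bL o L) (P.b o 1)) Z) := by
    rw [P.tens_comp, P.tens_J]
  have h5 : P.comp (P.tens (P.b o 1) ((Cn (deg L)).prod Z))
      (P.comp (P.J (PMap.ofHomeo (LC.lunit ((Cn (deg L)).prod Z))))
        (P.comp (P.tens (P.bL o L) Z) (P.J (PMap.ofHomeo (LC.lunit Z))))) =
      P.comp (P.J (PMap.ofHomeo (sh (Cn 1) (Cn (deg L)) Z)))
        (P.comp (P.tens (P.mulPt (P.bL o L) (P.b o 1)) Z) (P.J (PMap.ofHomeo (LC.lunit Z)))) :=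
    mb_aux P.toBiv (P.bL o L) (P.b o 1) Z
  have h6 : (PMap.tens (PMap.ofHomeo (CnAdd (deg L) 1).symm) Z).comp
      (PMap.ofHomeo (kap (deg L) Z)) = PMap.ofHomeo (sh (Cn 1) (Cn (deg L)) Z) := rfl
  rw [h4, ← P.assoc (P.J (PMap.ofHomeo (LC.lunit K))), h2, P.assoc, ← P.assoc (P.tens (P.b o 1) K),
    h3, P.assoc, h5, P.inc_comp, P.inc_J, inc_ltens33, P.assoc, P.assoc (P.J (PMap.tens _ Z)),
    ← P.assoc (P.J (PMap.ofHomeo (kap (deg L) Z))), ← P.J_comp, h6]

/-! ### The coefficients of the powers of `b_1` -/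

/-- the list `1, …, 1` -/
def repl (n : ℕ) : PL := ⟨List.replicate n 1, List.pairwise_replicate.2 (Or.inr le_rfl),
  fun i hi => by rw [List.eq_of_mem_replicate hi]; exact Nat.one_pos⟩

theorem deg_repl (n : ℕ) : deg (List.replicate n 1) = n := by
  rw [deg_eq_sum, List.sum_replicate, smul_eq_mul, mul_one]

/-- `1 :: L` -/
def consOne (L : PL) : PL := ⟨1 :: L.1, List.pairwise_cons.2 ⟨fun i hi => L.2.2 i hi, L.2.1⟩,
  fun i hi => by
    rcases List.mem_cons.1 hi with rfl | h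
    · exact Nat.one_pos
    · exact L.2.2 i h⟩

theorem consOne_inj : Function.Injective consOne := by
  intro L L' h
  exact Subtype.ext (List.cons.inj (congrArg Subtype.val h)).2

theorem consOne_repl (n : ℕ) : consOne (repl n) = repl (n + 1) := rfl

theorem castT_add {d d' : ℕ} (h : d = d') (c c' : R.Hom K ((Cn d).prod Z)) :
    PO7.castT h (c + c') = PO7.castT h c + PO7.castT h c' := by
  subst h
  rfl

theorem castT_comp {d d' : ℕ} (h : d = d') (u : R.Hom K' K) (c : R.Hom K ((Cn d).prod Z)) :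
    PO7.castT h (R.comp u c) = R.comp u (PO7.castT h c) := by
  subst h
  rfl

theorem castT_ll {d d' : ℕ} (h : d = d') (c : R.Hom K ((Cn d).prod Z)) :
    PO7.castT h (R.comp (R.ltens W c) (R.J (PMap.ofHomeo (ll W (Cn d) Z)))) =
      R.comp (R.ltens W (PO7.castT h c)) (R.J (PMap.ofHomeo (ll W (Cn d') Z))) := by
  subst h
  rfl

theorem castT_kap {d d' : ℕ} (h : d = d') (h' : d + 1 = d' + 1) (c : R.Hom K ((Cn d).prod Z)) :
    PO7.castT h' (R.comp (R.ltens (Cn 1) c) (R.J (PMap.ofHomeo (kap d Z)))) =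
      R.comp (R.ltens (Cn 1) (PO7.castT h c)) (R.J (PMap.ofHomeo (kap d' Z))) := by
  subst h
  rfl

/-- the coefficient of `b_1^n` -/
def cfb (K Z : LC) (n : ℕ) : P.Hom K Z →+ R.Hom K ((Cn n).prod Z) :=
  (AddMonoidHom.mk' (PO7.castT (deg_repl n)) (castT_add (deg_repl n))).comp (co P o K Z (repl n))

theorem cfb_apply (n : ℕ) (y : P.Hom K Z) :
    cfb P o K Z n y = PO7.castT (deg_repl n) (co P o K Z (repl n) y) := rfl

theorem cfb_inc (h : R.Hom K Z) :
    cfb P o K Z 0 (P.inc h) = R.comp h (R.J (PMap.ofHomeo (LC.lunit Z).symm)) := by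
  classical
  have h1 : P.inc h = P.term (R.comp h (R.J (PMap.ofHomeo (LC.lunit Z).symm)) :
      R.Hom K ((Cn (deg (repl 0).1)).prod Z)) (P.bL o (repl 0).1) := by
    change P.inc h = P.comp (P.inc (R.comp h (R.J (PMap.ofHomeo (LC.lunit Z).symm))))
      (P.comp (P.tens (P.J (PMap.id LC.point)) Z) (P.J (PMap.ofHomeo (LC.lunit Z))))
    have h2 := J_homeo' (R := P.toBiv) (LC.lunit Z)
    rw [P.inc_comp, P.inc_J, Helper84.Sn.tens_one, one, P.id_comp, P.assoc, h2, one, P.comp_id]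
  rw [cfb_apply, h1, co_term, DFinsupp.single_eq_same]
  rfl

theorem cfb_mb (n : ℕ) (y : P.Hom K Z) :
    cfb P o ((Cn 1).prod K) Z (n + 1)
      (P.comp (P.tens (P.b o 1) K) (P.comp (P.J (PMap.ofHomeo (LC.lunit K))) y)) =
      R.comp (R.ltens (Cn 1) (cfb P o K Z n y)) (R.J (PMap.ofHomeo (kap n Z))) := by
  have h := co_nat P o (mb P o K Z) consOne consOne_inj
    (fun L => AddMonoidHom.mk' (fun c => R.comp (R.ltens (Cn 1) c)
      (R.J (PMap.ofHomeo (kap (deg L.1) Z)))) fun c c' => by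
        rw [Helper84.Sn.ltens_add, R.add_comp]) (fun L c => mb_term P o L.1 c) (repl n) y
  rw [cfb_apply, cfb_apply]
  refine (congrArg (PO7.castT (deg_repl (n + 1))) h).trans ?_
  exact castT_kap (deg_repl n) (deg_repl (n + 1)) _

theorem cfb_comp (n : ℕ) (u : R.Hom K' K) (y : P.Hom K Z) :
    cfb P o K' Z n (P.comp (P.inc u) y) = R.comp u (cfb P o K Z n y) := by
  have h := co_nat P o (compLH (R := P.toBiv) Z (P.inc u)) (fun L => L)
    Function.injective_id (fun L => compLH (R := R) _ u)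
    (fun L c => term_comp P u c _) (repl n) y
  rw [cfb_apply, cfb_apply, ← castT_comp]
  exact congrArg (PO7.castT (deg_repl n)) h

theorem cfb_ltens (n : ℕ) (y : P.Hom K Z) :
    cfb P o (W.prod K) (W.prod Z) n (P.ltens W y) =
      R.comp (R.ltens W (cfb P o K Z n y)) (R.J (PMap.ofHomeo (ll W (Cn n) Z))) := by
  have h := co_nat P o (ltensH P.toBiv K Z W) (fun L => L)
    Function.injective_id (fun L => AddMonoidHom.mk' (fun c => R.comp (R.ltens W c)
      (R.J (PMap.ofHomeo (ll W (Cn (deg L.1)) Z)))) fun c c' => by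
        rw [Helper84.Sn.ltens_add, R.add_comp])
    (fun L c => term_ltens P W c _) (repl n) y
  rw [cfb_apply, cfb_apply, ← castT_ll]
  exact congrArg (PO7.castT (deg_repl n)) h

end

end Pool.Agent.Helper33.Sn
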